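import Pool.Agent.MP_b34510_co.SQ.FIN

/-!
# Almost perfect packings of centrosymmetric queens patterns

For every even `n` and every prime `p > n` the `n × n` board contains at least
`n - C (p^{2/3} (p - n)^{1/3} + p^{5/6} (log p)^{1/6})` pairwise disjoint centrosymmetric solutions of the
`n`-queens problem.  The definitions `IsPattern`, `Centro`, `Packs`, `SQ` are in
`Pool/Agent/MP_b34510_co/SQ/Defs.lean`.
-/

set_option autoImplicit false

namespace Pool.Agent.Results.MP_b34510_co.AlmostPacking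

open Pool.Agent.MP_b34510_co

theorem result : ∃ C : ℝ, 0 < C ∧ ∀ n p : ℕ, Even n → p.Prime → n < p →
    (n : ℝ) - C * ((p : ℝ) ^ (2 / 3 : ℝ) * ((p : ℝ) - n) ^ (1 / 3 : ℝ) +
      (p : ℝ) ^ (5 / 6 : ℝ) * (Real.log p) ^ (1 / 6 : ℝ)) ≤ (SQ n : ℝ) :=
  final

end Pool.Agent.Results.MP_b34510_co.AlmostPacking
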